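import Mathlib

namespace Pool.Agent.Results.MP_41a700_co.Disproof

open SimpleGraph

/-- A class of graphs. -/
abbrev GraphClass := ∀ V : Type, SimpleGraph V → Prop

/-- `F` is the edge set of a subgraph of `G` isomorphic to a member of `P`. -/
def IsCopy (P : GraphClass) {V : Type} (G : SimpleGraph V) (F : Set (Sym2 V)) : Prop :=
  ∃ (W : Type) (H : SimpleGraph W) (f : W ↪ V), P W H ∧ H.map f ≤ G ∧ F = (H.map f).edgeSet

/-- A matroidal family: a nonempty class of finite connected graphs, closed under isomorphism, whose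
copies in any finite graph `G` are the circuits of a matroid on `E(G)`. -/
structure Matroidal (P : GraphClass) : Prop where
  nonempty : ∃ V G, P V G
  finite : ∀ V G, P V G → Finite V
  connected : ∀ V G, P V G → G.Connected
  iso : ∀ V W (G : SimpleGraph V) (H : SimpleGraph W), Nonempty (G ≃g H) → P V G → P W H
  matroid : ∀ (V : Type) [Finite V] (G : SimpleGraph V), ∃ M : Matroid (Sym2 V),
    M.E = G.edgeSet ∧ ∀ C, M.IsCircuit C ↔ IsCopy P G C

lemma mem_K {V : Type} (f : Fin 3 ⊕ Fin 8 ↪ V) (e : Sym2 V) :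
    e ∈ ((completeBipartiteGraph (Fin 3) (Fin 8)).map f).edgeSet ↔
      ∃ i j, e = s(f (.inl i), f (.inr j)) := by
  induction e using Sym2.ind with
  | _ a b =>
    simp only [mem_edgeSet, map_adj]
    constructor
    · rintro ⟨x | x, y | y, h, rfl, rfl⟩
      · simp at h
      · exact ⟨x, y, rfl⟩
      · exact ⟨y, x, Sym2.eq_swap⟩
      · simp at h
    · rintro ⟨i, j, h⟩
      rcases Sym2.eq_iff.1 h with ⟨rfl, rfl⟩ | ⟨rfl, rfl⟩
      · exact ⟨_, _, by simp, rfl, rfl⟩
      · exact ⟨_, _, by simp, rfl, rfl⟩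

def emb (a : Fin 3 → ℕ) (b : Fin 8 → ℕ) (ha : ∀ i, a i < 1010) (hb : ∀ j, b j < 1010)
    (h1 : Function.Injective a) (h2 : Function.Injective b) (h3 : ∀ i j, a i ≠ b j) :
    Fin 3 ⊕ Fin 8 ↪ Fin 1010 :=
  ⟨Sum.elim (fun i => ⟨a i, ha i⟩) (fun j => ⟨b j, hb j⟩), by
    rintro (x | x) (y | y) h <;> simp only [Sum.elim_inl, Sum.elim_inr, Fin.mk.injEq] at h
    · rw [h1 h]
    · exact absurd h (h3 _ _)
    · exact absurd h.symm (h3 _ _)
    · rw [h2 h]⟩

def Sp : Finset (Sym2 (Fin 1010)) :=
  (Finset.univ.image fun p : Fin 10 × Fin 10 => s(⟨p.1, by omega⟩, ⟨p.2, by omega⟩)) ∪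
  (Finset.univ.image fun p : Fin 2 × Fin 1010 => s(⟨p.1, by omega⟩, p.2))

def blk (p : Fin 101 × Fin 3 × Fin 7) : Sym2 (Fin 1010) :=
  s(⟨10 * p.1 + p.2.1, by omega⟩, ⟨10 * p.1 + 3 + p.2.2, by omega⟩)

lemma blk_inj : Function.Injective blk := by
  rintro ⟨a, b, c⟩ ⟨d, e, f⟩ h
  simp only [blk, Sym2.eq_iff, Fin.mk.injEq] at h
  simp only [Prod.mk.injEq, Fin.ext_iff]
  omega

lemma no38 (P : GraphClass) (hP : Matroidal P) :
    ¬ P _ (completeBipartiteGraph (Fin 3) (Fin 8)) := by
  intro hK
  obtain ⟨M, hE, hC⟩ := hP.matroid (Fin 1010) ⊤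
  have circ : ∀ f : Fin 3 ⊕ Fin 8 ↪ Fin 1010,
      M.IsCircuit ((completeBipartiteGraph (Fin 3) (Fin 8)).map f).edgeSet :=
    fun f => (hC _).2 ⟨_, _, f, hK, le_top, rfl⟩
  have base : ∀ c v : Fin 1010, c ≠ v → (c.val < 10 ∧ v.val < 10) ∨ c.val < 2 →
      s(c, v) ∈ M.closure Sp := fun c v hcv h => by
    refine M.inter_ground_subset_closure _ ⟨?_, by rw [hE]; exact hcv⟩
    rcases h with h | h
    · exact Finset.mem_coe.2 (Finset.mem_union_left _
        (Finset.mem_image.2 ⟨(⟨c, h.1⟩, ⟨v, h.2⟩), Finset.mem_univ _, rfl⟩))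
    · exact Finset.mem_coe.2 (Finset.mem_union_right _
        (Finset.mem_image.2 ⟨(⟨c, h⟩, v), Finset.mem_univ _, rfl⟩))
  have span : ∀ (n : ℕ) (c v : Fin 1010), v.val < n → c < v → s(c, v) ∈ M.closure Sp := by
    intro n
    induction n with
    | zero => exact fun _ _ h => absurd h (Nat.not_lt_zero _)
    | succ n ih =>
      intro c v hv hcv
      have hcv' : c.val < v.val := hcv
      by_cases h : v.val < 10 ∨ c.val < 2
      · exact base c v hcv.ne (by omega)
      let f := emb (fun i => if i.val = 2 then c else i)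
        (fun j => if j.val = 7 then v else if j.val + 2 < c then j + 2 else j + 3)
        (fun i => by split_ifs <;> omega) (fun j => by split_ifs <;> omega)
        (fun i j e => by simp only at e; split_ifs at e <;> omega)
        (fun i j e => by simp only at e; split_ifs at e <;> omega)
        (fun i j => by split_ifs <;> omega)
      have he : s(c, v) ∈ ((completeBipartiteGraph (Fin 3) (Fin 8)).map f).edgeSet :=
        (mem_K f _).2 ⟨2, 7, rfl⟩
      refine M.closure_subset_closure_of_subset_closure ?_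
        ((circ f).mem_closure_sdiff_singleton_of_mem he)
      rintro e ⟨h1, h2⟩
      obtain ⟨i, j, rfl⟩ := (mem_K f _).1 h1
      have hne : f (.inl i) ≠ f (.inr j) := f.injective.ne (by simp)
      have e1 : (f (.inl i)).val = if i.val = 2 then c.val else i.val := rfl
      have e2 : (f (.inr j)).val =
        if j.val = 7 then v.val else if j.val + 2 < c then j + 2 else j + 3 := rfl
      by_cases hi : i.val = 2
      · have hj : j.val ≠ 7 := fun hj => h2 (by
          obtain rfl : i = 2 := Fin.ext hi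
          obtain rfl : j = 7 := Fin.ext hj
          rfl)
        rw [if_pos hi] at e1
        rw [if_neg hj] at e2
        rcases lt_or_gt_of_ne hne with h3 | h3
        · exact ih _ _ (by split_ifs at e2 <;> omega) h3
        · rw [Sym2.eq_swap]; exact ih _ _ (by omega) h3
      · exact base _ _ hne (Or.inr (by rw [if_neg hi] at e1; omega))
  have hI : Set.range blk ⊆ M.closure Sp := by
    rintro _ ⟨p, rfl⟩
    exact span 1010 _ _ (Fin.is_lt _) (by simp only [Fin.mk_lt_mk]; omega)
  have ind : M.Indep (Set.range blk) := by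
    rw [Matroid.indep_iff_forall_subset_not_isCircuit (hI.trans (M.closure_subset_ground _))]
    intro C hCI hCc
    obtain ⟨W, H, g, hH, -, rfl⟩ := (hC C).1 hCc
    have loc : ∀ a b, H.Adj a b → (g a).val / 10 = (g b).val / 10 := fun a b hab => by
      obtain ⟨p, hp⟩ := hCI (show s(g a, g b) ∈ _ from (map_adj _ _ _ _).2 ⟨a, b, hab, rfl, rfl⟩)
      simp only [blk, Sym2.eq_iff, Fin.ext_iff] at hp
      omega
    have glob : ∀ a b, (g a).val / 10 = (g b).val / 10 := fun a b => by
      obtain ⟨w⟩ := (hP.connected _ _ hH).preconnected a b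
      induction w with
      | nil => rfl
      | cons h _ ih => exact (loc _ _ h).trans ih
    obtain ⟨a0⟩ := (hP.connected _ _ hH).nonempty
    have hk := (g a0).2
    let f := emb (fun i => 10 * ((g a0).val / 10) + i)
      (fun j => if j.val = 7 then (if (g a0).val < 10 then 10 else 0)
        else 10 * ((g a0).val / 10) + 3 + j)
      (fun i => by omega) (fun j => by split_ifs <;> omega)
      (fun i j e => by simp only at e; omega)
      (fun i j e => by simp only at e; split_ifs at e <;> omega)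
      (fun i j => by split_ifs <;> omega)
    have sub : (H.map g).edgeSet ⊆ ((completeBipartiteGraph (Fin 3) (Fin 8)).map f).edgeSet := by
      intro e he
      obtain ⟨⟨k, i, j⟩, rfl⟩ := hCI he
      obtain ⟨a, b, -, h1, -⟩ := (map_adj _ _ _ _).1 he
      have h2 := congrArg Fin.val h1
      have h3 := glob a a0
      simp only at h2
      have hj := j.2
      refine (mem_K f _).2 ⟨i, ⟨j, by omega⟩, ?_⟩
      have e1 : (f (.inl i)).val = 10 * ((g a0).val / 10) + i := rfl
      have e2 : (f (.inr ⟨j, by omega⟩)).val = if j.val = 7 then (if (g a0).val < 10 then 10 else 0)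
        else 10 * ((g a0).val / 10) + 3 + j := rfl
      rw [if_neg (by omega)] at e2
      simp only [blk, Sym2.eq_iff, Fin.ext_iff, e1, e2]
      omega
    have := hCc.eq_of_subset_isCircuit (circ f) sub
    obtain ⟨p, hp⟩ := hCI (this ▸ (mem_K f _).2 ⟨0, 7, rfl⟩)
    have e1 : (f (.inl 0)).val = 10 * ((g a0).val / 10) := rfl
    have e2 : (f (.inr 7)).val = if (g a0).val < 10 then 10 else 0 := rfl
    simp only [blk, Sym2.eq_iff, Fin.ext_iff, e1, e2] at hp
    split_ifs at hp <;> omega
  have h1 := ind.encard_le_eRk_of_subset hI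
  rw [Matroid.eRk_closure_eq] at h1
  have h2 := h1.trans (M.eRk_le_encard _)
  rw [← Set.image_univ, blk_inj.encard_image, Set.encard_coe_eq_coe_finsetCard] at h2
  have h3 : Sp.card ≤ 2120 := by
    refine (Finset.card_union_le _ _).trans ((add_le_add Finset.card_image_le
      Finset.card_image_le).trans (by simp))
  simp only [Set.encard_univ, ENat.card_eq_coe_fintype_card, Fintype.card_prod, Fintype.card_fin,
    Nat.cast_le] at h2
  omega

/-- No matroidal family contains `K_{3,8}`. -/
theorem result : ∃ m n : ℕ, 3 ≤ m ∧ m ≤ n ∧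
    ¬ ∃ P : GraphClass, Matroidal P ∧ P _ (completeBipartiteGraph (Fin m) (Fin n)) :=
  ⟨3, 8, le_rfl, by norm_num, fun ⟨P, h1, h2⟩ => no38 P h1 h2⟩

end Pool.Agent.Results.MP_41a700_co.Disproof
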